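import Pool.Agent.V11328.E6.Lim

/-! The exact value of the least number of deletions. -/

open MeasureTheory ProbabilityTheory unitInterval Finset Filter Topology

namespace Pool.Agent.Results.MP_e6ec33_pr.Exact

open Pool.Agent.V11328 Pool.Agent.V11328.E6

open Classical in
/-- Exact value of `f_k(G)` when `p √n / log n` tends to infinity. -/
theorem result (k : ℕ) (hk : 2 ≤ k) (p : ℕ → unitInterval)
    (hp : Tendsto (fun n : ℕ => √(n : ℝ) * p n / Real.log n) atTop atTop) :
    Tendsto (fun n : ℕ => (SimpleGraph.binomialRandom (Fin n) (p n))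
      {G : SimpleGraph (Fin n) | fk k G = ((minTouch k G : ℕ) : ℕ∞) ∧
        minTouch k G < k * (G.minDegree - 1)}) atTop (𝓝 1) := by
  have hkR : (2 : ℝ) ≤ k := by exact_mod_cast hk
  have hp2 : Tendsto (fun n : ℕ => (n : ℝ) * p n / Real.log n) atTop atTop := by
    refine tendsto_atTop_mono' _ ?_ hp
    filter_upwards [eventually_ge_atTop 1] with n hn
    have h1 : (1 : ℝ) ≤ n := by exact_mod_cast hn
    have h2 : √(n : ℝ) ≤ n := by
      rw [Real.sqrt_le_left (by linarith)]
      nlinarith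
    have h3 : 0 ≤ Real.log n := Real.log_nonneg h1
    have hp0 : 0 ≤ (p n : ℝ) := (p n).2.1
    gcongr
  set η : ℝ := 1 / (4 * k) with hη
  have hη0 : 0 < η := by positivity
  have hη1 : η ≤ 1 := by
    rw [hη, div_le_one (by positivity)]; linarith
  set m : ℕ → ℕ := fun n => 2 * k * (Nat.sqrt n + 1) with hm
  have hmsq : ∀ n : ℕ, √(n : ℝ) ≤ Nat.sqrt n + 1 := by
    intro n
    rw [Real.sqrt_le_left (by positivity)]
    have := Nat.lt_succ_sqrt n
    have h2 : n ≤ (Nat.sqrt n + 1) * (Nat.sqrt n + 1) := this.le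
    have h3 : (n : ℝ) ≤ ((Nat.sqrt n + 1) * (Nat.sqrt n + 1) : ℕ) := by exact_mod_cast h2
    push_cast at h3
    nlinarith
  refine tendsto_one (B := fun n => badDeg (V := Fin n) (p n : ℝ) η ∪
      badPair (V := Fin n) (p n : ℝ) (m n)) (b := fun n => 2 / n + 1 / n) ?_ ?_ ?_
  · filter_upwards [q_large (4 * (k : ℝ)) hp2, eventually_ge_atTop (k + 1),
      hp.eventually_ge_atTop (100 * (k : ℝ) ^ 2 + 1), eventually_ge_atTop 3] with n h1 h2 h3 h4 G hG
    rw [Set.mem_union, not_or] at hG
    have : Nonempty (Fin n) := ⟨⟨0, by omega⟩⟩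
    have hn : (3 : ℝ) ≤ n := by exact_mod_cast h4
    have hp0 : 0 < (p n : ℝ) := by
      rcases (p n).2.1.lt_or_eq with h | h
      · exact h
      · exfalso
        rw [← h] at h1
        simp at h1
        linarith
    have hlog : 1 ≤ Real.log n := by
      rw [Real.le_log_iff_exp_le (by linarith)]
      have := Real.exp_one_lt_d9
      linarith
    have hsq : √(n : ℝ) * √(n : ℝ) = n := Real.mul_self_sqrt (by linarith)
    have hs1 : 1 ≤ √(n : ℝ) := by
      rw [Real.one_le_sqrt]; linarith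
    have hps : 100 * (k : ℝ) ^ 2 < √(n : ℝ) * p n := by
      rw [le_div_iff₀ (by linarith)] at h3
      nlinarith [sq_nonneg (k : ℝ)]
    have hmn : ((m n : ℕ) : ℝ) ≤ 4 * k * √(n : ℝ) := by
      have : (Nat.sqrt n : ℝ) ≤ √(n : ℝ) := Real.nat_sqrt_le_real_sqrt
      simp only [hm]
      push_cast
      nlinarith
    have hgood : Good G k (m n)
        ⌈(1 - 1 / (4 * k : ℝ)) * ((p n : ℝ) * (Fintype.card (Fin n) - 1 : ℕ))⌉₊
        ⌊(1 + 1 / (4 * k : ℝ)) * ((p n : ℝ) * (Fintype.card (Fin n) - 1 : ℕ))⌋₊ := by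
      refine good_of_not_bad hk hp0 (by rw [Fintype.card_fin]; omega) ?_ ?_ hG.1 hG.2
      · rw [Fintype.card_fin]
        have h5 : n ≤ (Nat.sqrt n + 1) * (Nat.sqrt n + 1) := (Nat.lt_succ_sqrt n).le
        calc 4 * k * k * n ≤ 4 * k * k * ((Nat.sqrt n + 1) * (Nat.sqrt n + 1)) :=
              Nat.mul_le_mul_left _ h5
          _ = m n * m n := by simp only [hm]; ring
      · rw [Fintype.card_fin]
        have h6 : ((n - 1 : ℕ) : ℝ) = n - 1 := by
          rw [Nat.cast_sub (by omega)]; simp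
        rw [h6]
        have h7 : √(n : ℝ) * (√(n : ℝ) * p n) / 2 ≤ (p n : ℝ) * (n - 1) := by
          have : √(n : ℝ) * (√(n : ℝ) * p n) = n * p n := by rw [← mul_assoc, hsq]
          rw [this]
          nlinarith
        have h8 : 8 * (k : ℝ) * (k + (m n : ℕ)) ≤ 40 * k ^ 2 * √(n : ℝ) := by
          have : (k : ℝ) ≤ k * √(n : ℝ) := by nlinarith
          nlinarith
        have h9 : 50 * (k : ℝ) ^ 2 * √(n : ℝ) < √(n : ℝ) * (√(n : ℝ) * p n) / 2 := by
          nlinarith
        have h10 : 40 * (k : ℝ) ^ 2 * √(n : ℝ) ≤ 50 * (k : ℝ) ^ 2 * √(n : ℝ) := by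
          have : 0 ≤ (k : ℝ) ^ 2 * √(n : ℝ) := by positivity
          nlinarith
        linarith
    have hm1 : 1 ≤ m n := by
      simp only [hm]
      have : 0 < 2 * k * (Nat.sqrt n + 1) := by positivity
      omega
    refine ⟨fk_eq hk hm1 hgood, ?_⟩
    have hG1 := hG.1
    simp only [badDeg, Set.mem_ofPred_eq, not_exists, not_or, not_le] at hG1
    have hd := deg_facts (G := G) hk (by omega) h1 (fun v => (hG1 v).1.le)
      (fun v => (hG1 v).2.le)
    obtain ⟨S, hS, hSt⟩ := minTouch_spec (k := k) (by rw [Fintype.card_fin]; omega) G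
    have h11 := touching_card_le G S (b := G.maxDegree) (by
      intro v; rw [← degree_eq]; exact G.degree_le_maxDegree v)
    rw [hS, hSt] at h11
    exact h11.trans_lt hd
  · filter_upwards [deg_bound (c := η ^ 2 / 4) (by positivity) hp2,
      hp.eventually_ge_atTop (24 : ℝ), eventually_ge_atTop 3] with n hn h3 h4
    refine (measureReal_union_le _ _).trans ?_
    refine add_le_add ((badDeg_le (V := Fin n) (p n) hη0.le hη1).trans hn) ?_
    refine (badPair_le (V := Fin n) (p n) (m n)).trans ?_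
    rw [Fintype.card_fin]
    have hn : (3 : ℝ) ≤ n := by exact_mod_cast h4
    have hlog : 0 < Real.log n := Real.log_pos (by linarith)
    have hm1 : (1 : ℝ) ≤ (m n : ℕ) := by
      have : 1 ≤ m n := by
        simp only [hm]
        have : 0 < 2 * k * (Nat.sqrt n + 1) := by positivity
        omega
      exact_mod_cast this
    have hp0 : 0 ≤ (p n : ℝ) := (p n).2.1
    have hmn : 2 * √(n : ℝ) ≤ ((m n : ℕ) : ℝ) := by
      have h5 := hmsq n
      simp only [hm]
      push_cast
      have : (0 : ℝ) ≤ (Nat.sqrt n : ℝ) + 1 := by positivity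
      nlinarith
    have h6 : 48 * Real.log n ≤ (p n : ℝ) * (m n : ℕ) := by
      rw [le_div_iff₀ hlog] at h3
      nlinarith
    have hpow : (n : ℝ) ^ (m n) = Real.exp ((m n : ℕ) * Real.log n) := by
      rw [← Real.rpow_natCast, Real.rpow_def_of_pos (by linarith), mul_comm]
    rw [hpow, ← Real.exp_add, ← Real.exp_add]
    have h7 : (1 : ℝ) / n = Real.exp (-Real.log n) := by
      rw [Real.exp_neg, Real.exp_log (by linarith), one_div]
    rw [h7]
    refine Real.exp_le_exp.2 ?_
    have h8 : (p n : ℝ) * ((m n * m n : ℕ) : ℝ) = (p n : ℝ) * (m n : ℕ) * (m n : ℕ) := by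
      push_cast; ring
    rw [h8]
    have h9 : 48 * Real.log n * (m n : ℕ) ≤ (p n : ℝ) * (m n : ℕ) * (m n : ℕ) :=
      mul_le_mul_of_nonneg_right h6 (by linarith)
    have h10 : Real.log n ≤ Real.log n * (m n : ℕ) := by nlinarith
    nlinarith
  · have h1 : Tendsto (fun n : ℕ => (1 : ℝ) / n) atTop (𝓝 0) := tendsto_one_div_atTop_nhds_zero_nat
    have := tendsto_two_div.add h1
    simpa using this

end Pool.Agent.Results.MP_e6ec33_pr.Exact
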