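import Pool.Agent.V11328.E6.Lim

/-! The asked identity fails with high probability. -/

open MeasureTheory ProbabilityTheory unitInterval Finset Filter Topology

namespace Pool.Agent.Results.MP_e6ec33_pr.Fails

open Pool.Agent.V11328 Pool.Agent.V11328.E6

open Classical in
/-- For fixed `k`, `f_k(G)` differs from `k (δ(G) - 1)` with high probability when `n p / log n` tends to infinity. -/
theorem result (k : ℕ) (hk : 2 ≤ k) (p : ℕ → unitInterval)
    (hp : Tendsto (fun n : ℕ => (n : ℝ) * p n / Real.log n) atTop atTop) :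
    Tendsto (fun n : ℕ => (SimpleGraph.binomialRandom (Fin n) (p n))
      {G : SimpleGraph (Fin n) | fk k G ≠ ((k * (G.minDegree - 1) : ℕ) : ℕ∞) ∧
        (pcn G ≤ k → fk k G ≤ (((k - 1) * G.maxDegree : ℕ) : ℕ∞) ∧
          (k - 1) * G.maxDegree < k * (G.minDegree - 1))}) atTop (𝓝 1) := by
  have hkR : (2 : ℝ) ≤ k := by exact_mod_cast hk
  set η : ℝ := 1 / (4 * k) with hη
  have hη0 : 0 < η := by positivity
  have hη1 : η ≤ 1 := by
    rw [hη, div_le_one (by positivity)]; linarith
  refine tendsto_one (B := fun n => badDeg (V := Fin n) (p n : ℝ) η) (b := fun n => 2 / n)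
    ?_ ?_ tendsto_two_div
  · filter_upwards [q_large (4 * (k : ℝ)) hp, eventually_ge_atTop (k + 1)] with n h1 h2 G hG
    simp only [badDeg, Set.mem_ofPred_eq, not_exists, not_or, not_le] at hG
    have hd := deg_facts (G := G) hk (by omega) h1 (fun v => (hG v).1.le) (fun v => (hG v).2.le)
    have hcase : pcn G ≤ k → fk k G ≤ (((k - 1) * G.maxDegree : ℕ) : ℕ∞) := by
      intro hpc
      refine (fk_le (b := G.maxDegree) (by omega) (by rw [Fintype.card_fin]; omega) hpc ?_).1
      intro v
      rw [← degree_eq]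
      exact G.degree_le_maxDegree v
    refine ⟨?_, fun hpc => ⟨hcase hpc, hd⟩⟩
    by_cases hpc : pcn G ≤ k
    · have h3 := hcase hpc
      intro hcon
      rw [hcon] at h3
      have h4 : k * (G.minDegree - 1) ≤ (k - 1) * G.maxDegree := by exact_mod_cast h3
      omega
    · rw [fk_eq_top (by omega)]
      exact ENat.top_ne_natCast _
  · filter_upwards [deg_bound (c := η ^ 2 / 4) (by positivity) hp] with n hn
    exact (badDeg_le (V := Fin n) (p n) hη0.le hη1).trans hn

end Pool.Agent.Results.MP_e6ec33_pr.Fails
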