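import Pool.Agent.V11328.E6.Lim

/-! The asked identity for k = 2. -/

open MeasureTheory ProbabilityTheory unitInterval Finset Filter Topology

namespace Pool.Agent.Results.MP_e6ec33_pr.FailsTwo

open Pool.Agent.V11328 Pool.Agent.V11328.E6

open Classical in
/-- For `k = 2` the identity fails with high probability for sparser graphs too. -/
theorem result (p : ℕ → unitInterval)
    (hp : Tendsto (fun n : ℕ => (n : ℝ) * p n - Real.log n - 2 * Real.log (Real.log n))
      atTop atTop) :
    Tendsto (fun n : ℕ => (SimpleGraph.binomialRandom (Fin n) (p n))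
      {G : SimpleGraph (Fin n) | fk 2 G ≠ ((2 * (G.minDegree - 1) : ℕ) : ℕ∞) ∧
        (pcn G ≤ 2 → fk 2 G ≤ ((G.minDegree : ℕ) : ℕ∞) ∧
          G.minDegree < 2 * (G.minDegree - 1))}) atTop (𝓝 1) := by
  have hlogn : Tendsto (fun n : ℕ => Real.log (n : ℝ)) atTop atTop :=
    Real.tendsto_log_atTop.comp tendsto_natCast_atTop_atTop
  refine tendsto_one (B := fun n => {G : SimpleGraph (Fin n) | ∃ v, #(nb G v) ≤ 2}) ?_ ?_
    (low_degree_tendsto hp)
  · filter_upwards [eventually_ge_atTop 3] with n hn G hG
    simp only [not_exists, not_le, Set.mem_ofPred_eq] at hG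
    have : Nonempty (Fin n) := ⟨⟨0, by omega⟩⟩
    obtain ⟨w, hw⟩ := G.exists_minimal_degree_vertex
    have h3 : 3 ≤ G.minDegree := by
      rw [hw, degree_eq]
      exact hG w
    have hcase : pcn G ≤ 2 → fk 2 G ≤ ((G.minDegree : ℕ) : ℕ∞) := by
      intro hpc
      refine (fk_le (b := G.maxDegree) (by omega) (by rw [Fintype.card_fin]; omega) hpc
        (fun v => by rw [← degree_eq]; exact G.degree_le_maxDegree v)).2.trans ?_
      have h4 : minTouch 2 G ≤ G.minDegree := by
        refine (minTouch_le G (S := {w}) (by simp)).trans ?_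
        rw [hw, degree_eq]
        exact touching_single G w
      exact_mod_cast h4
    refine ⟨?_, fun hpc => ⟨hcase hpc, by omega⟩⟩
    by_cases hpc : pcn G ≤ 2
    · have h4 := hcase hpc
      intro hcon
      rw [hcon] at h4
      have h5 : 2 * (G.minDegree - 1) ≤ G.minDegree := by exact_mod_cast h4
      omega
    · rw [fk_eq_top (by omega)]
      exact ENat.top_ne_natCast _
  · filter_upwards [hp.eventually_ge_atTop 0, hlogn.eventually_ge_atTop 1,
      eventually_ge_atTop 2] with n h1 h2 h3
    refine low_degree h3 (p n) ?_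
    have : 0 ≤ Real.log (Real.log (n : ℝ)) := Real.log_nonneg h2
    linarith

end Pool.Agent.Results.MP_e6ec33_pr.FailsTwo
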